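import Pool.Agent.Run7.h907.TorusProof

/-!
# Tonelli Lagrangians on torus bundles over the circle, invariant along the fibres

Every nonempty energy level carries a periodic orbit or a singularity.  The definitions are in
`Pool.Agent.Run7.h907.TorusDefs`.
-/

open Run7.h907.TorusBundle

namespace Pool.Agent.Results.MP_fe6961_an.TorusBundle

/-- On the mapping torus of any `A ∈ GL_m(ℤ)`, `m ≥ 1`, every nonempty energy level of a Tonelli
Lagrangian that is invariant under the translations of the torus fibres contains a periodic orbit
or a singularity. -/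
theorem result (m : ℕ) (hm : 0 < m) (A : Matrix.GeneralLinearGroup (Fin m) ℤ)
    (L : Cover m → Cover m → ℝ) (hT : IsTonelli A L)
    (hfib : ∀ (a : Fin m → ℝ) (q v : Cover m), L (q.1 + a, q.2) v = L q v)
    (k : ℝ) (hk : ∃ q v : Cover m, energy L q v = k) :
    (∃ c : ℝ → Cover m, IsPeriodicOrbit A L k c) ∨ (∃ q : Cover m, IsSingularity L k q) :=
  main m hm A L hT hfib k hk

end Pool.Agent.Results.MP_fe6961_an.TorusBundle
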